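import Pool.Agent.H13.EC.Defs

namespace Pool.Agent.H3.EC

universe u

theorem inv : Pool.Agent.H13.EC.T_INV.{u} := by
  intro k R _ _ _ _ I J f hf hIJ hfin hrk
  have hle : Ideal.span {f} ≤ I := hIJ ▸ Ideal.mul_le_left
  -- cancel `f`
  have hcancel : ∀ r : R, (∀ s ∈ Ideal.span {f}, r * s ∈ Ideal.span {f} * J) → r ∈ J := by
    intro r hr
    have h1 := hr f (Ideal.mem_span_singleton_self f)
    rw [Ideal.mem_span_singleton_mul] at h1
    obtain ⟨z, hz, hzf⟩ := h1
    have : f * z = f * r := by rw [hzf]; ring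
    exact (mul_left_cancel₀ hf this) ▸ hz
  by_cases hI : I = Ideal.span {f}
  · left
    rw [Ideal.eq_top_iff_one]
    apply hcancel
    intro s hs
    rw [one_mul, ← hI, hIJ]
    exact hs
  right
  have hlt : ∃ m₀ ∈ I, m₀ ∉ Ideal.span {f} := by
    by_contra hcon
    push Not at hcon
    exact hI (le_antisymm hcon hle)
  obtain ⟨m₀, hm₀, hm₀f⟩ := hlt
  -- the quotient of I by (f) has dimension at most one
  have hdim : ∀ m ∈ I, ∃ c : k, m - algebraMap k R c * m₀ ∈ Ideal.span {f} := by
    have hfin' : FiniteDimensional k (R ⧸ Ideal.span {f}) := hfin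
    let g : (R ⧸ Ideal.span {f}) →ₐ[k] (R ⧸ I) := Ideal.Quotient.factorₐ k hle
    have hg : ∀ r : R, g (Ideal.Quotient.mk _ r) = Ideal.Quotient.mk _ r := fun r => rfl
    have hsurj : Function.Surjective g := by
      intro y
      obtain ⟨r, rfl⟩ := Ideal.Quotient.mk_surjective y
      exact ⟨Ideal.Quotient.mk _ r, hg r⟩
    have hrn := LinearMap.finrank_range_add_finrank_ker g.toLinearMap
    have hrange : Module.finrank k (LinearMap.range g.toLinearMap) = Module.finrank k (R ⧸ I) := by
      rw [LinearMap.range_eq_top.mpr hsurj, finrank_top]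
    have hmem : ∀ m ∈ I, Ideal.Quotient.mk (Ideal.span {f}) m ∈ LinearMap.ker g.toLinearMap := by
      intro m hm
      rw [LinearMap.mem_ker]
      exact (hg m).trans (Ideal.Quotient.eq_zero_iff_mem.mpr hm)
    let v₀ : LinearMap.ker g.toLinearMap := ⟨Ideal.Quotient.mk _ m₀, hmem m₀ hm₀⟩
    have hv₀ : v₀ ≠ 0 := by
      intro h0
      apply hm₀f
      have : Ideal.Quotient.mk (Ideal.span {f}) m₀ = 0 := congrArg Subtype.val h0
      exact Ideal.Quotient.eq_zero_iff_mem.mp this
    have hpos : 0 < Module.finrank k (LinearMap.ker g.toLinearMap) :=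
      Module.finrank_pos_iff_exists_ne_zero.mpr ⟨v₀, hv₀⟩
    have hone : Module.finrank k (LinearMap.ker g.toLinearMap) = 1 := by omega
    intro m hm
    obtain ⟨c, hc⟩ := exists_smul_eq_of_finrank_eq_one hone hv₀ ⟨Ideal.Quotient.mk _ m, hmem m hm⟩
    refine ⟨c, ?_⟩
    have h1 : c • Ideal.Quotient.mk (Ideal.span {f}) m₀ = Ideal.Quotient.mk (Ideal.span {f}) m :=
      congrArg Subtype.val hc
    rw [← Ideal.Quotient.eq_zero_iff_mem, map_sub, ← h1, sub_eq_zero, map_mul, Algebra.smul_def]
    rfl
  have huniq : ∀ c : k, algebraMap k R c * m₀ ∈ Ideal.span {f} → c = 0 := by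
    intro c hc
    by_contra hc0
    apply hm₀f
    have : m₀ = algebraMap k R c⁻¹ * (algebraMap k R c * m₀) := by
      rw [← mul_assoc, ← map_mul, inv_mul_cancel₀ hc0, map_one, one_mul]
    rw [this]
    exact Ideal.mul_mem_left _ _ hc
  choose! c hc using hdim
  have hcu : ∀ m ∈ I, ∀ d : k, m - algebraMap k R d * m₀ ∈ Ideal.span {f} → c m = d := by
    intro m hm d hd
    have h1 := Ideal.sub_mem _ hd (hc m hm)
    have h2 : (m - algebraMap k R d * m₀) - (m - algebraMap k R (c m) * m₀)
        = algebraMap k R (c m - d) * m₀ := by rw [map_sub]; ring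
    rw [h2] at h1
    exact sub_eq_zero.mp (huniq _ h1)
  let h : R →ₐ[k] k :=
    { toFun := fun r => c (r * m₀)
      map_one' := hcu _ (by simpa using hm₀) _ (by simp)
      map_mul' := by
        intro r s
        apply hcu _ (Ideal.mul_mem_left _ _ hm₀)
        have h1 := hc (r * m₀) (Ideal.mul_mem_left _ _ hm₀)
        have h2 := hc (s * m₀) (Ideal.mul_mem_left _ _ hm₀)
        have h3 : r * s * m₀ - algebraMap k R (c (r * m₀) * c (s * m₀)) * m₀ =
            r * (s * m₀ - algebraMap k R (c (s * m₀)) * m₀) +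
            algebraMap k R (c (s * m₀)) * (r * m₀ - algebraMap k R (c (r * m₀)) * m₀) := by
          rw [map_mul]; ring
        rw [h3]
        exact Ideal.add_mem _ (Ideal.mul_mem_left _ _ h2) (Ideal.mul_mem_left _ _ h1)
      map_zero' := hcu _ (by simp) _ (by simp)
      map_add' := by
        intro r s
        apply hcu _ (Ideal.mul_mem_left _ _ hm₀)
        have h1 := hc (r * m₀) (Ideal.mul_mem_left _ _ hm₀)
        have h2 := hc (s * m₀) (Ideal.mul_mem_left _ _ hm₀)
        have h3 : (r + s) * m₀ - algebraMap k R (c (r * m₀) + c (s * m₀)) * m₀ =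
            (s * m₀ - algebraMap k R (c (s * m₀)) * m₀) +
            (r * m₀ - algebraMap k R (c (r * m₀)) * m₀) := by
          rw [map_add]; ring
        rw [h3]
        exact Ideal.add_mem _ h2 h1
      commutes' := by
        intro a
        apply hcu _ (Ideal.mul_mem_left _ _ hm₀)
        simp }
  refine ⟨h, ?_⟩
  have hspec : ∀ r, r * m₀ - algebraMap k R (h r) * m₀ ∈ Ideal.span {f} :=
    fun r => hc (r * m₀) (Ideal.mul_mem_left _ _ hm₀)
  ext r
  rw [RingHom.mem_ker]
  constructor
  · intro hr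
    apply huniq
    have h1 : r * m₀ ∈ Ideal.span {f} := by
      rw [← hIJ, mul_comm r]
      exact Ideal.mul_mem_mul hm₀ hr
    have h2 := Ideal.sub_mem _ h1 (hspec r)
    have h3 : r * m₀ - (r * m₀ - algebraMap k R (h r) * m₀) = algebraMap k R (h r) * m₀ := by ring
    rw [h3] at h2
    exact h2
  · intro hr
    have hrI : ∀ m ∈ I, r * m ∈ Ideal.span {f} := by
      intro m hm
      have h1 := hspec r
      have hr' : h r = 0 := hr
      rw [hr', map_zero, zero_mul, sub_zero] at h1
      have h2 := hc m hm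
      have h3 : r * m = r * (m - algebraMap k R (c m) * m₀) + algebraMap k R (c m) * (r * m₀) := by
        ring
      rw [h3]
      exact Ideal.add_mem _ (Ideal.mul_mem_left _ _ h2) (Ideal.mul_mem_left _ _ h1)
    apply hcancel
    intro s hs
    rw [← hIJ] at hs
    refine Submodule.mul_induction_on hs ?_ ?_
    · intro m hm n hn
      have : r * (m * n) = (r * m) * n := by ring
      rw [this]
      exact Ideal.mul_mem_mul (hrI m hm) hn
    · intro x y hx hy
      rw [mul_add]
      exact Ideal.add_mem _ hx hy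

end Pool.Agent.H3.EC
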