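import Pool.Agent.H13.EC.Defs

open Polynomial WeierstrassCurve.Affine

namespace Pool.Agent.H3.EC

universe u

theorem ptm : Pool.Agent.H13.EC.T_PTM.{u} := by
  intro k _ W h
  have hC : ∀ p : k[X], h (CoordinateRing.mk W (C p)) =
      p.eval (h (CoordinateRing.mk W (C X))) := by
    intro p
    have : (h : W.CoordinateRing →+* k).comp ((CoordinateRing.mk W).comp (C : k[X] →+* k[X][X])) =
        evalRingHom (h (CoordinateRing.mk W (C X))) := by
      apply Polynomial.ringHom_ext
      · intro a
        simp only [RingHom.coe_comp, Function.comp_apply, coe_evalRingHom, eval_C]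
        exact h.commutes a
      · simp
    exact RingHom.congr_fun this p
  have hE : ∀ p : k[X][X], h (CoordinateRing.mk W p) =
      p.evalEval (h (CoordinateRing.mk W (C X))) (h (CoordinateRing.mk W X)) := by
    intro p
    have : (h : W.CoordinateRing →+* k).comp (CoordinateRing.mk W) =
        evalEvalRingHom (h (CoordinateRing.mk W (C X))) (h (CoordinateRing.mk W X)) := by
      apply Polynomial.ringHom_ext
      · intro q
        have h1 := hC q
        have h2 : evalEvalRingHom (h (CoordinateRing.mk W (C X))) (h (CoordinateRing.mk W X)) (C q)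
            = eval (h (CoordinateRing.mk W (C X))) q := by
          rw [coe_evalEvalRingHom, evalEval_C]
        rw [h2]
        exact h1
      · simp
    exact RingHom.congr_fun this p
  have heq : W.Equation (h (CoordinateRing.mk W (C X))) (h (CoordinateRing.mk W X)) := by
    unfold WeierstrassCurve.Affine.Equation
    rw [← hE, AdjoinRoot.mk_self, map_zero]
  refine ⟨h (CoordinateRing.mk W (C X)), h (CoordinateRing.mk W X), heq, ?_⟩
  have hmax : (CoordinateRing.XYIdeal W (h (CoordinateRing.mk W (C X)))
      (C (h (CoordinateRing.mk W X)))).IsMaximal := by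
    rw [Ideal.Quotient.maximal_ideal_iff_isField_quotient]
    exact (CoordinateRing.quotientXYIdealEquiv heq).toMulEquiv.isField (Field.toIsField k)
  symm
  apply hmax.eq_of_le (RingHom.ker_ne_top _)
  rw [CoordinateRing.XYIdeal, Ideal.span_le]
  intro a ha
  simp only [Set.mem_insert_iff, Set.mem_singleton_iff] at ha
  rw [SetLike.mem_coe, RingHom.mem_ker]
  rcases ha with rfl | rfl
  · unfold CoordinateRing.XClass
    rw [hE, evalEval_C, eval_sub, eval_X, eval_C, sub_self]
  · unfold CoordinateRing.YClass
    rw [hE, evalEval_sub, evalEval_X, evalEval_C, eval_C, sub_self]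

end Pool.Agent.H3.EC
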