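import Pool.Agent.H50.EC.Targets

/-!
The graph has no odd prism (MP_816b90_co, S09780).
-/

set_option autoImplicit false

namespace Pool.Agent.H3.EC

open Pool.Agent.H50.EC

/-! ### the search -/

/-- all bits `k < n` of `m` satisfy `f` -/
def loop : Nat → Nat → (Nat → Bool) → Bool
  | 0, _, _ => true
  | k + 1, m, f => (!(Nat.testBit m k) || f k) && loop k m f

theorem loop_true {n m : Nat} {f : Nat → Bool} (h : loop n m f = true) :
    ∀ k, k < n → Nat.testBit m k = true → f k = true := by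
  induction n with
  | zero =>
    intro k hk
    omega
  | succ n ih =>
    intro k hk hm
    rw [loop, Bool.and_eq_true, Bool.or_eq_true] at h
    by_cases hkn : k = n
    · subst hkn
      rcases h.1 with h1 | h1
      · rw [hm] at h1
        exact absurd h1 (by decide)
      · exact h1
    · exact ih h.2 k (by omega) hm

/-- evaluation of a number -/
def force (m : Nat) (f : Nat → Bool) : Bool :=
  Nat.rec (f 0) (fun n _ => f (Nat.succ n)) m

theorem force_eq (m : Nat) (f : Nat → Bool) : force m f = f m := by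
  cases m <;> rfl

/-- the search for the rest of the prism -/
def chk2 (a0 a1 b0 b1 : Nat) : Bool :=
  force (nb a0 &&& nb a1 &&& cnb b0 &&& cnb b1) fun ca =>
    Nat.beq ca 0 || force (nb b0 &&& nb b1 &&& cnb a0 &&& cnb a1) fun cb =>
      Nat.beq cb 0 || force (cnb a0 &&& cnb a1 &&& cnb b0 &&& cnb b1) fun mid =>
        loop 32 ca fun a2 => loop 32 cb fun b2 => !(A a2 b2) &&
          force (nb a2 &&& mid &&& cnb b2) fun xs => Nat.beq xs 0 ||
            force (nb b2 &&& mid &&& cnb a2) fun ys => Nat.beq ys 0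

/-- the search -/
def chk1 (a0 : Nat) : Bool :=
  loop 32 (nb a0) fun a1 =>
    force (nb a0 &&& cnb a1) fun m0 => loop 32 m0 fun b0 =>
      force (nb a1 &&& nb b0 &&& cnb a0) fun m1 => loop 32 m1 fun b1 => chk2 a0 a1 b0 b1

set_option maxRecDepth 100000 in
theorem chk_true : loop 32 4294967295 chk1 = true := by
  decide +kernel

theorem beq_or {m k : Nat} {P : Bool} (h : (Nat.beq m 0 || P) = true)
    (hm : Nat.testBit m k = true) : P = true := by
  rw [Bool.or_eq_true] at h
  rcases h with h | h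
  · have h1 : m = 0 := Nat.eq_of_beq_eq_true h
    rw [h1, Nat.zero_testBit] at hm
    exact absurd hm (by decide)
  · exact h

theorem full_testBit {a : Nat} (h : a < 32) : Nat.testBit 4294967295 a = true := by
  have h1 : (4294967295 : Nat) = 2 ^ 32 - 1 := by norm_num
  rw [h1, Nat.testBit_two_pow_sub_one]
  exact decide_eq_true h

theorem tb {x y k : Nat} (h1 : Nat.testBit x k = true) (h2 : Nat.testBit y k = true) :
    Nat.testBit (x &&& y) k = true := by
  rw [Nat.testBit_and, h1, h2]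
  rfl

/-- the result of the search -/
theorem found {a0 a1 b0 b1 a2 b2 : Nat} (la0 : a0 < 32) (la1 : a1 < 32) (lb0 : b0 < 32)
    (lb1 : b1 < 32) (la2 : a2 < 32) (lb2 : b2 < 32) (h1 : A a0 a1 = true) (h2 : A a0 b0 = true)
    (h3 : CA a1 b0 = true) (h4 : A a1 b1 = true) (h5 : A b0 b1 = true) (h6 : CA a0 b1 = true)
    (h7 : A a0 a2 = true) (h8 : A a1 a2 = true) (h9 : CA b0 a2 = true) (h10 : CA b1 a2 = true)
    (h11 : A b0 b2 = true) (h12 : A b1 b2 = true) (h13 : CA a0 b2 = true)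
    (h14 : CA a1 b2 = true) :
    A a2 b2 = false ∧ ∀ x y : Nat, x < 32 → y < 32 → A a2 x = true → CA a0 x = true →
      CA a1 x = true → CA b0 x = true → CA b1 x = true → CA b2 x = true → A b2 y = true →
      CA a0 y = true → CA a1 y = true → CA b0 y = true → CA b1 y = true → CA a2 y = true →
      False := by
  have k1 := loop_true chk_true a0 la0 (full_testBit la0)
  rw [chk1] at k1
  have k2 := loop_true k1 a1 la1 h1
  rw [force_eq] at k2
  have k3 := loop_true k2 b0 lb0 (tb h2 h3)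
  rw [force_eq] at k3
  have k4 := loop_true k3 b1 lb1 (tb (tb h4 h5) h6)
  rw [chk2, force_eq] at k4
  have ca : Nat.testBit (nb a0 &&& nb a1 &&& cnb b0 &&& cnb b1) a2 = true :=
    tb (tb (tb h7 h8) h9) h10
  have cb : Nat.testBit (nb b0 &&& nb b1 &&& cnb a0 &&& cnb a1) b2 = true :=
    tb (tb (tb h11 h12) h13) h14
  have k5 := beq_or k4 ca
  rw [force_eq] at k5
  have k6 := beq_or k5 cb
  rw [force_eq] at k6
  have k7 := loop_true (loop_true k6 a2 la2 ca) b2 lb2 cb
  rw [Bool.and_eq_true, force_eq] at k7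
  refine ⟨by simpa using k7.1, ?_⟩
  intro x y lx ly x1 x2 x3 x4 x5 x6 y1 y2 y3 y4 y5 y6
  have xs : Nat.testBit (nb a2 &&& (cnb a0 &&& cnb a1 &&& cnb b0 &&& cnb b1) &&& cnb b2) x =
      true := tb (tb x1 (tb (tb (tb x2 x3) x4) x5)) x6
  have ys : Nat.testBit (nb b2 &&& (cnb a0 &&& cnb a1 &&& cnb b0 &&& cnb b1) &&& cnb a2) y =
      true := tb (tb y1 (tb (tb (tb y2 y3) y4) y5)) y6
  have k8 := beq_or k7.2 xs
  rw [force_eq] at k8
  have k9 := Nat.eq_of_beq_eq_true k8
  rw [k9, Nat.zero_testBit] at ys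
  exact absurd ys (by decide)

/-! ### the prism in index form -/

/-- the prism in index form -/
structure PIx (n : Fin 3 → ℕ) (g : Fin 3 → ℕ → Fin 32) : Prop where
  inj : ∀ i j k l, k ≤ n i → l ≤ n j → g i k = g j l → i = j ∧ k = l
  adj : ∀ i j k l, k ≤ n i → l ≤ n j → (G.Adj (g i k) (g j l) ↔
    (i = j ∧ (k + 1 = l ∨ l + 1 = k)) ∨ (i ≠ j ∧ ((k = 0 ∧ l = 0) ∨ (k = n i ∧ l = n j))))

theorem PIx.ca {n : Fin 3 → ℕ} {g : Fin 3 → ℕ → Fin 32} (h : PIx n g) {i j : Fin 3} {k l : ℕ}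
    (hk : k ≤ n i) (hl : l ≤ n j) (h1 : ¬ (i = j ∧ k = l))
    (h2 : ¬ ((i = j ∧ (k + 1 = l ∨ l + 1 = k)) ∨
      (i ≠ j ∧ ((k = 0 ∧ l = 0) ∨ (k = n i ∧ l = n j))))) :
    CA (g i k).1 (g j l).1 = true := by
  rw [CA_iff, Bool.and_eq_true, decide_eq_true_iff, Bool.not_eq_true']
  refine ⟨fun e => h1 (h.inj i j k l hk hl e), ?_⟩
  rw [← Bool.not_eq_true]
  exact fun e => h2 ((h.adj i j k l hk hl).1 e)

theorem PIx.a {n : Fin 3 → ℕ} {g : Fin 3 → ℕ → Fin 32} (h : PIx n g) {i j : Fin 3} {k l : ℕ}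
    (hk : k ≤ n i) (hl : l ≤ n j)
    (h2 : (i = j ∧ (k + 1 = l ∨ l + 1 = k)) ∨
      (i ≠ j ∧ ((k = 0 ∧ l = 0) ∨ (k = n i ∧ l = n j)))) :
    A (g i k).1 (g j l).1 = true := (h.adj i j k l hk hl).2 h2

/-- the lengths of two rungs -/
theorem PIx.two (hC : T_CYC) {n : Fin 3 → ℕ} {g : Fin 3 → ℕ → Fin 32} (h : PIx n g)
    (hn : ∀ i, 1 ≤ n i) {i j : Fin 3} (hij : i ≠ j) : n i + n j = 2 ∨ n i + n j = 4 := by
  have h1 := hn i
  have h2 := hn j
  have key := hC (n i + n j + 2) (fun t => if t ≤ n i then g i t else g j (n i + n j + 1 - t))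
    (by omega) ?_ ?_
  · omega
  · intro s t hs ht e
    split_ifs at e with e1 e2 e2
    · exact (h.inj _ _ _ _ e1 e2 e).2
    · exact absurd (h.inj _ _ _ _ e1 (by omega) e).1 hij
    · exact absurd (h.inj _ _ _ _ (by omega) e2 e).1.symm hij
    · have := (h.inj _ _ _ _ (by omega) (by omega) e).2
      omega
  · intro s t hst ht
    split_ifs with e1 e2 e2
    · rw [h.adj _ _ _ _ e1 e2]
      constructor
      · rintro (⟨-, h3 | h3⟩ | ⟨h3, -⟩)
        · exact Or.inl (by omega)
        · omega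
        · exact absurd rfl h3
      · intro h3
        exact Or.inl ⟨rfl, by omega⟩
    · rw [h.adj _ _ _ _ e1 (by omega)]
      constructor
      · rintro (⟨h3, -⟩ | ⟨-, h3 | h3⟩)
        · exact absurd h3 hij
        · exact Or.inr (by omega)
        · exact Or.inl (by omega)
      · intro h3
        exact Or.inr ⟨hij, by omega⟩
    · omega
    · rw [h.adj _ _ _ _ (by omega) (by omega)]
      constructor
      · rintro (⟨-, h3 | h3⟩ | ⟨h3, -⟩)
        · omega
        · exact Or.inl (by omega)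
        · exact absurd rfl h3
      · intro h3
        exact Or.inl ⟨rfl, by omega⟩

/-- the search excludes a prism with two rungs of length one -/
theorem PIx.short {n : Fin 3 → ℕ} {g : Fin 3 → ℕ → Fin 32} (h : PIx n g) {i j k : Fin 3}
    (hij : i ≠ j) (hik : i ≠ k) (hjk : j ≠ k) (hi : n i = 1) (hj : n j = 1)
    (hk : n k = 1 ∨ n k = 3) : False := by
  have hkp : 1 ≤ n k := by omega
  have main := found (a0 := (g i 0).1) (a1 := (g j 0).1) (b0 := (g i 1).1) (b1 := (g j 1).1)
    (a2 := (g k 0).1) (b2 := (g k (n k)).1) (g i 0).2 (g j 0).2 (g i 1).2 (g j 1).2 (g k 0).2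
    (g k (n k)).2
    (h.a (by omega) (by omega) (Or.inr ⟨hij, by omega⟩))
    (h.a (by omega) (by omega) (Or.inl ⟨rfl, by omega⟩))
    (h.ca (by omega) (by omega) (fun e => hij e.1.symm) (by
      rintro (⟨e, -⟩ | ⟨-, e⟩)
      · exact hij e.symm
      · omega))
    (h.a (by omega) (by omega) (Or.inl ⟨rfl, by omega⟩))
    (h.a (by omega) (by omega) (Or.inr ⟨hij, by omega⟩))
    (h.ca (by omega) (by omega) (fun e => hij e.1) (by
      rintro (⟨e, -⟩ | ⟨-, e⟩)
      · exact hij e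
      · omega))
    (h.a (by omega) (by omega) (Or.inr ⟨hik, by omega⟩))
    (h.a (by omega) (by omega) (Or.inr ⟨hjk, by omega⟩))
    (h.ca (by omega) (by omega) (fun e => hik e.1) (by
      rintro (⟨e, -⟩ | ⟨-, e⟩)
      · exact hik e
      · omega))
    (h.ca (by omega) (by omega) (fun e => hjk e.1) (by
      rintro (⟨e, -⟩ | ⟨-, e⟩)
      · exact hjk e
      · omega))
    (h.a (by omega) (by omega) (Or.inr ⟨hik, by omega⟩))
    (h.a (by omega) (by omega) (Or.inr ⟨hjk, by omega⟩))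
    (h.ca (by omega) (by omega) (fun e => hik e.1) (by
      rintro (⟨e, -⟩ | ⟨-, e⟩)
      · exact hik e
      · omega))
    (h.ca (by omega) (by omega) (fun e => hjk e.1) (by
      rintro (⟨e, -⟩ | ⟨-, e⟩)
      · exact hjk e
      · omega))
  rcases hk with hk | hk
  · have h1 : A (g k 0).1 (g k (n k)).1 = true :=
      h.a (by omega) (by omega) (Or.inl ⟨rfl, by omega⟩)
    rw [main.1] at h1
    exact absurd h1 (by decide)
  · refine main.2 (g k 1).1 (g k 2).1 (g k 1).2 (g k 2).2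
      (h.a (by omega) (by omega) (Or.inl ⟨rfl, by omega⟩)) ?_ ?_ ?_ ?_
      (h.ca (by omega) (by omega) (fun e => by omega) (by
        rintro (⟨-, e⟩ | ⟨e, -⟩)
        · omega
        · exact e rfl))
      (h.a (by omega) (by omega) (Or.inl ⟨rfl, by omega⟩)) ?_ ?_ ?_ ?_
      (h.ca (by omega) (by omega) (fun e => by omega) (by
        rintro (⟨-, e⟩ | ⟨e, -⟩)
        · omega
        · exact e rfl))
    all_goals
      refine h.ca (by omega) (by omega) (fun e => ?_) ?_
      · first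
          | exact hik e.1
          | exact hjk e.1
      · rintro (⟨e, -⟩ | ⟨-, e⟩)
        · first
            | exact hik e
            | exact hjk e
        · omega

theorem PIx.false (hC : T_CYC) {n : Fin 3 → ℕ} {g : Fin 3 → ℕ → Fin 32} (h : PIx n g)
    (hn : ∀ i, n i % 2 = 1) : False := by
  have hp : ∀ i, 1 ≤ n i := fun i => by
    have := hn i
    omega
  have h01 := h.two hC hp (i := 0) (j := 1) (by decide)
  have h02 := h.two hC hp (i := 0) (j := 2) (by decide)
  have h12 := h.two hC hp (i := 1) (j := 2) (by decide)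
  have p0 := hn 0
  have p1 := hn 1
  have p2 := hn 2
  rcases (show (n 0 = 1 ∧ n 1 = 1 ∧ (n 2 = 1 ∨ n 2 = 3)) ∨ (n 0 = 1 ∧ n 2 = 1 ∧ n 1 = 3) ∨
    (n 1 = 1 ∧ n 2 = 1 ∧ n 0 = 3) by omega) with ⟨e1, e2, e3⟩ | ⟨e1, e2, e3⟩ | ⟨e1, e2, e3⟩
  · exact h.short (i := 0) (j := 1) (k := 2) (by decide) (by decide) (by decide) e1 e2 e3
  · exact h.short (i := 0) (j := 2) (k := 1) (by decide) (by decide) (by decide) e1 e2 (Or.inr e3)
  · exact h.short (i := 1) (j := 2) (k := 0) (by decide) (by decide) (by decide) e1 e2 (Or.inr e3)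

/-! ### from walks to indices -/

theorem PIx.mk' {n : Fin 3 → ℕ} {g : Fin 3 → ℕ → Fin 32}
    (inj : ∀ i k l, k ≤ n i → l ≤ n i → g i k = g i l → k = l)
    (disj : ∀ i j k l, i ≠ j → k ≤ n i → l ≤ n j → g i k ≠ g j l)
    (adj : ∀ i j k l, k ≤ n i → l ≤ n j → (G.Adj (g i k) (g j l) ↔
      (∃ m, ∃ q, s(g m q, g m (q + 1)) = s(g i k, g j l) ∧ q < n m) ∨
      (g i k ≠ g j l ∧ (∃ m, g i k = g m 0) ∧ ∃ m, g j l = g m 0) ∨
      (g i k ≠ g j l ∧ (∃ m, g i k = g m (n m)) ∧ ∃ m, g j l = g m (n m)))) : PIx n g := by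
  have inj' : ∀ i j k l, k ≤ n i → l ≤ n j → g i k = g j l → i = j ∧ k = l := by
    intro i j k l hk hl e
    by_cases hij : i = j
    · subst hij
      exact ⟨rfl, inj i k l hk hl e⟩
    · exact absurd e (disj i j k l hij hk hl)
  refine ⟨inj', ?_⟩
  intro i j k l hk hl
  rw [adj i j k l hk hl]
  constructor
  · rintro (⟨m, q, e, hq⟩ | ⟨hne, ⟨m, e1⟩, m', e2⟩ | ⟨hne, ⟨m, e1⟩, m', e2⟩)
    · rw [Sym2.eq_iff] at e
      rcases e with ⟨e1, e2⟩ | ⟨e1, e2⟩
      · have f1 := inj' m i q k (by omega) hk e1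
        have f2 := inj' m j (q + 1) l (by omega) hl e2
        exact Or.inl ⟨f1.1.symm.trans f2.1, Or.inl (by omega)⟩
      · have f1 := inj' m j q l (by omega) hl e1
        have f2 := inj' m i (q + 1) k (by omega) hk e2
        exact Or.inl ⟨f2.1.symm.trans f1.1, Or.inr (by omega)⟩
    · have f1 := inj' i m k 0 hk (by omega) e1
      have f2 := inj' j m' l 0 hl (by omega) e2
      refine Or.inr ⟨fun e => hne ?_, Or.inl ⟨f1.2, f2.2⟩⟩
      rw [e, f1.2, f2.2]
    · have f1 := inj' i m k (n m) hk le_rfl e1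
      have f2 := inj' j m' l (n m') hl le_rfl e2
      obtain ⟨rfl, f1⟩ := f1
      obtain ⟨rfl, f2⟩ := f2
      refine Or.inr ⟨fun e => hne ?_, Or.inr ⟨f1, f2⟩⟩
      subst e
      rw [f1, f2]
  · rintro (⟨rfl, e | e⟩ | ⟨hne, ⟨rfl, rfl⟩ | ⟨rfl, rfl⟩⟩)
    · refine Or.inl ⟨i, k, ?_, by omega⟩
      rw [e]
    · refine Or.inl ⟨i, l, ?_, by omega⟩
      rw [e, Sym2.eq_swap]
    · exact Or.inr (Or.inl ⟨disj _ _ _ _ hne hk hl, ⟨_, rfl⟩, _, rfl⟩)
    · exact Or.inr (Or.inr ⟨disj _ _ _ _ hne hk hl, ⟨_, rfl⟩, _, rfl⟩)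

/-- the graph has no odd prism -/
theorem pf_PR (hC : T_CYC) : T_PR := by
  rintro ⟨a1, a2, a3, b1, b2, b3, p1, p2, p3, h1, h2, h3, l1, l2, l3, d12, d13, d23, adj⟩
  have key : PIx ![p1.length, p2.length, p3.length] ![p1.getVert, p2.getVert, p3.getVert] := by
    refine PIx.mk' ?_ ?_ ?_
    · intro i k l hk hl e
      fin_cases i
      · exact h1.getVert_injOn hk hl e
      · exact h2.getVert_injOn hk hl e
      · exact h3.getVert_injOn hk hl e
    · intro i j k l hij hk hl
      have m1 := p1.getVert_mem_support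
      have m2 := p2.getVert_mem_support
      have m3 := p3.getVert_mem_support
      fin_cases i <;> fin_cases j
      · exact absurd rfl hij
      · exact fun (e : p1.getVert k = p2.getVert l) => d12 _ (m1 k) (e ▸ m2 l)
      · exact fun (e : p1.getVert k = p3.getVert l) => d13 _ (m1 k) (e ▸ m3 l)
      · exact fun (e : p2.getVert k = p1.getVert l) => d12 _ (m1 l) (e ▸ m2 k)
      · exact absurd rfl hij
      · exact fun (e : p2.getVert k = p3.getVert l) => d23 _ (m2 k) (e ▸ m3 l)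
      · exact fun (e : p3.getVert k = p1.getVert l) => d13 _ (m1 l) (e ▸ m3 k)
      · exact fun (e : p3.getVert k = p2.getVert l) => d23 _ (m2 l) (e ▸ m3 k)
      · exact absurd rfl hij
    · intro i j k l hk hl
      have m : ∀ (i : Fin 3) (k : ℕ),
          (![p1.getVert, p2.getVert, p3.getVert] i k ∈ p1.support ∨
            ![p1.getVert, p2.getVert, p3.getVert] i k ∈ p2.support ∨
            ![p1.getVert, p2.getVert, p3.getVert] i k ∈ p3.support) := by
        intro i k
        fin_cases i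
        · exact Or.inl (p1.getVert_mem_support k)
        · exact Or.inr (Or.inl (p2.getVert_mem_support k))
        · exact Or.inr (Or.inr (p3.getVert_mem_support k))
      rw [adj _ _ (m i k) (m j l)]
      generalize ![p1.getVert, p2.getVert, p3.getVert] i k = u
      generalize ![p1.getVert, p2.getVert, p3.getVert] j l = v
      rw [SimpleGraph.Walk.toSubgraph_adj_iff, SimpleGraph.Walk.toSubgraph_adj_iff,
        SimpleGraph.Walk.toSubgraph_adj_iff]
      simp [Fin.exists_fin_succ, or_assoc]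
  refine key.false hC ?_
  intro i
  fin_cases i
  · exact l1
  · exact l2
  · exact l3

end Pool.Agent.H3.EC
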